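import Pool.Agent.Q271.TH.Main

set_option autoImplicit false

/-!
# MP_35dbbb: the lower bound for the Thue chromatic number of lexicographic products fails
-/

namespace Pool.Agent.Results.MP_35dbbb_co.LexProduct

open Pool.Agent.Q271.TH

/-- **MP_35dbbb, negative answer.** There are graphs `G` on seven vertices and `H` on two vertices
with `π(G[H]) < π(H) + (π(G) - 1) |V(H)|`. -/
theorem result : ∃ (G : SimpleGraph (Fin 7)) (H : SimpleGraph (Fin 2)),
    thue (lex G H) < thue H + (thue G - 1) * Fintype.card (Fin 2) :=
  main

end Pool.Agent.Results.MP_35dbbb_co.LexProduct
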